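import Mathlib

/-! Auxiliary results for `TaskSM`: divisor bound and squarefull numbers. -/

set_option autoImplicit false

open Finset

namespace Pool.Agent.H398R3.NA

theorem small_bound (a : ℕ) : ((a : ℝ) + 1) ≤ 30 * (2 : ℝ) ^ ((a : ℝ) / 20) := by
  have h1 : (2 : ℝ) ^ ((a : ℝ) / 20) = Real.exp (Real.log 2 * ((a : ℝ) / 20)) := by
    rw [Real.rpow_def_of_pos (by norm_num)]
  have h2 := Real.add_one_le_exp (Real.log 2 * ((a : ℝ) / 20))
  have h3 := Real.log_two_gt_d9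
  have ha : (0 : ℝ) ≤ a := Nat.cast_nonneg a
  rw [h1]
  nlinarith

theorem local_bound (p a : ℕ) (hp : 2 ≤ p) :
    ((a : ℝ) + 1) ^ 5 ≤ (if p < 2 ^ 20 then (30 : ℝ) ^ 5 else 1) * (p : ℝ) ^ ((a : ℝ) / 4) := by
  have ha : (0 : ℝ) ≤ a := Nat.cast_nonneg a
  have hp' : (2 : ℝ) ≤ p := by exact_mod_cast hp
  split_ifs with h
  · have h1 := small_bound a
    have h2 : ((a : ℝ) + 1) ^ 5 ≤ (30 * (2 : ℝ) ^ ((a : ℝ) / 20)) ^ 5 :=
      pow_le_pow_left₀ (by positivity) h1 5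
    rw [mul_pow] at h2
    have h3 : ((2 : ℝ) ^ ((a : ℝ) / 20)) ^ 5 = (2 : ℝ) ^ ((a : ℝ) / 4) := by
      rw [← Real.rpow_natCast, ← Real.rpow_mul (by norm_num)]
      congr 1
      push_cast
      ring
    rw [h3] at h2
    refine h2.trans (mul_le_mul_of_nonneg_left ?_ (by positivity))
    exact Real.rpow_le_rpow (by norm_num) hp' (by positivity)
  · push Not at h
    rw [one_mul]
    have h1 : ((a : ℝ) + 1) ≤ 2 ^ a := by
      have := Nat.lt_two_pow_self (n := a)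
      exact_mod_cast this
    have h2 : ((a : ℝ) + 1) ^ 5 ≤ ((2 : ℝ) ^ a) ^ 5 := pow_le_pow_left₀ (by positivity) h1 5
    have h3 : ((2 : ℝ) ^ a) ^ 5 = (32 : ℝ) ^ a := by
      rw [← pow_mul, mul_comm, pow_mul]
      norm_num
    rw [h3] at h2
    refine h2.trans ?_
    have h4 : (32 : ℝ) ≤ (p : ℝ) ^ ((1 : ℝ) / 4) := by
      have h5 : ((2 : ℝ) ^ 20) ≤ p := by exact_mod_cast h
      calc (32 : ℝ) = ((2 : ℝ) ^ 20) ^ ((1 : ℝ) / 4) := by
            rw [← Real.rpow_natCast, ← Real.rpow_mul (by norm_num)]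
            norm_num
        _ ≤ _ := Real.rpow_le_rpow (by positivity) h5 (by norm_num)
    calc (32 : ℝ) ^ a ≤ ((p : ℝ) ^ ((1 : ℝ) / 4)) ^ a := pow_le_pow_left₀ (by norm_num) h4 a
      _ = (p : ℝ) ^ ((a : ℝ) / 4) := by
        rw [← Real.rpow_natCast, ← Real.rpow_mul (by positivity)]
        congr 1
        ring

/-- the constant of the divisor bound -/
noncomputable def D5 : ℝ := ((30 : ℝ) ^ 5) ^ (2 ^ 20)

theorem D5_pos : 0 < D5 := by unfold D5; exact pow_pos (by norm_num) _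

theorem div_bound (n : ℕ) (hn : n ≠ 0) : ((n.divisors.card : ℝ)) ^ 5 ≤ D5 * (n : ℝ) ^ ((1 : ℝ) / 4) := by
  rw [Nat.card_divisors hn]
  push_cast
  rw [← prod_pow]
  have h1 : ∏ p ∈ n.primeFactors, ((n.factorization p : ℝ) + 1) ^ 5 ≤
      ∏ p ∈ n.primeFactors, ((if p < 2 ^ 20 then (30 : ℝ) ^ 5 else 1) *
        (p : ℝ) ^ ((n.factorization p : ℝ) / 4)) := by
    refine prod_le_prod (fun p _ => by positivity) fun p hp => ?_
    exact local_bound p _ (Nat.prime_of_mem_primeFactors hp).two_le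
  refine h1.trans ?_
  rw [prod_mul_distrib]
  have h2 : ∏ p ∈ n.primeFactors, (p : ℝ) ^ ((n.factorization p : ℝ) / 4) =
      (n : ℝ) ^ ((1 : ℝ) / 4) := by
    conv_rhs => rw [← Nat.prod_factorization_pow_eq_self hn]
    rw [Finsupp.prod, Nat.support_factorization]
    push_cast
    rw [← Real.finsetProd_rpow _ _ (fun p _ => by positivity)]
    refine prod_congr rfl fun p _ => ?_
    rw [← Real.rpow_natCast, ← Real.rpow_mul (by positivity)]
    congr 1
    ring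
  rw [h2]
  refine mul_le_mul_of_nonneg_right ?_ (by positivity)
  rw [prod_ite, prod_const, prod_const_one, mul_one]
  unfold D5
  apply pow_le_pow_right₀ (by norm_num)
  calc _ ≤ (range (2 ^ 20)).card := card_le_card (by
        intro p hp
        rw [mem_filter] at hp
        exact mem_range.2 hp.2)
    _ = 2 ^ 20 := card_range _

/-- squarefull numbers up to `x` -/
def SF (x : ℕ) : Finset ℕ := (Icc 1 x).filter (fun B => ∀ p ∈ B.primeFactors, 2 ≤ B.factorization p)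

theorem sf_form (B : ℕ) (hB : 0 < B) (h : ∀ p ∈ B.primeFactors, 2 ≤ B.factorization p) :
    ∃ a c : ℕ, 0 < a ∧ 0 < c ∧ B = a ^ 3 * c ^ 2 := by
  obtain ⟨a, b, ha, hb, hab, hsq⟩ := Nat.sq_mul_squarefree_of_pos hB
  have hdvd : a ∣ b := by
    rw [← Nat.prod_primeFactors_of_squarefree hsq]
    refine prod_primes_dvd b (fun p hp => (Nat.prime_of_mem_primeFactors hp).prime) fun p hp => ?_
    have hpp := Nat.prime_of_mem_primeFactors hp
    have hpa := Nat.dvd_of_mem_primeFactors hp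
    by_contra hpb
    have hpB : p ∈ B.primeFactors := by
      rw [Nat.mem_primeFactors]
      exact ⟨hpp, hab ▸ hpa.mul_left _, hB.ne'⟩
    have h1 := h p hpB
    have h2 : B.factorization p = 2 * b.factorization p + a.factorization p := by
      rw [← hab, Nat.factorization_mul (by positivity) (by positivity), Nat.factorization_pow]
      simp
    have h3 : b.factorization p = 0 := Nat.factorization_eq_zero_of_not_dvd hpb
    have h4 : a.factorization p ≤ 1 := hsq.natFactorization_le_one p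
    omega
  obtain ⟨c, hc⟩ := hdvd
  refine ⟨a, c, ha, ?_, ?_⟩
  · rcases Nat.eq_zero_or_pos c with h0 | h0
    · subst h0; simp at hc; omega
    · exact h0
  · rw [← hab, hc]; ring

theorem sf_sum : ∃ C : ℝ, 0 < C ∧ ∀ x : ℕ, ∑ B ∈ SF x, (B : ℝ) ^ (-(3 / 4) : ℝ) ≤ C := by
  have s1 : Summable (fun n : ℕ => (n : ℝ) ^ (-(9 / 4) : ℝ)) := by
    rw [Real.summable_nat_rpow]; norm_num
  have s2 : Summable (fun n : ℕ => (n : ℝ) ^ (-(3 / 2) : ℝ)) := by
    rw [Real.summable_nat_rpow]; norm_num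
  set A := ∑' n : ℕ, (n : ℝ) ^ (-(9 / 4) : ℝ)
  set D := ∑' n : ℕ, (n : ℝ) ^ (-(3 / 2) : ℝ)
  have hA : 0 ≤ A := tsum_nonneg fun n => by positivity
  have hD : 0 ≤ D := tsum_nonneg fun n => by positivity
  refine ⟨A * D + 1, by positivity, fun x => ?_⟩
  have hsub : SF x ⊆ ((Icc 1 x) ×ˢ (Icc 1 x)).image (fun u : ℕ × ℕ => u.1 ^ 3 * u.2 ^ 2) := by
    intro B hB
    unfold SF at hB
    rw [mem_filter, mem_Icc] at hB
    obtain ⟨a, c, ha, hc, h⟩ := sf_form B (by omega) hB.2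
    rw [mem_image]
    refine ⟨(a, c), ?_, h.symm⟩
    rw [mem_product, mem_Icc, mem_Icc]
    have h1 : a ≤ a ^ 3 := Nat.le_self_pow (by norm_num) a
    have h2 : c ≤ c ^ 2 := Nat.le_self_pow (by norm_num) c
    have h3 : 1 ≤ a ^ 3 := Nat.one_le_pow _ _ ha
    have h4 : 1 ≤ c ^ 2 := Nat.one_le_pow _ _ hc
    have h5 : a ≤ B := by rw [h]; nlinarith
    have h6 : c ≤ B := by rw [h]; nlinarith
    simp only
    omega
  calc ∑ B ∈ SF x, (B : ℝ) ^ (-(3 / 4) : ℝ)
      ≤ ∑ B ∈ ((Icc 1 x) ×ˢ (Icc 1 x)).image (fun u : ℕ × ℕ => u.1 ^ 3 * u.2 ^ 2),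
          (B : ℝ) ^ (-(3 / 4) : ℝ) :=
        sum_le_sum_of_subset_of_nonneg hsub fun _ _ _ => by positivity
    _ ≤ ∑ u ∈ (Icc 1 x) ×ˢ (Icc 1 x), (((u.1 ^ 3 * u.2 ^ 2 : ℕ)) : ℝ) ^ (-(3 / 4) : ℝ) := by
        rw [← sum_fiberwise_of_maps_to (s := (Icc 1 x) ×ˢ (Icc 1 x))
          (t := ((Icc 1 x) ×ˢ (Icc 1 x)).image (fun u : ℕ × ℕ => u.1 ^ 3 * u.2 ^ 2))
          (g := fun u : ℕ × ℕ => u.1 ^ 3 * u.2 ^ 2) (fun u hu => mem_image_of_mem _ hu)]
        refine sum_le_sum fun B hB => ?_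
        rw [mem_image] at hB
        obtain ⟨u, hu, hub⟩ := hB
        calc (B : ℝ) ^ (-(3 / 4) : ℝ) = (((u.1 ^ 3 * u.2 ^ 2 : ℕ)) : ℝ) ^ (-(3 / 4) : ℝ) := by
              rw [hub]
          _ ≤ _ := single_le_sum (f := fun u : ℕ × ℕ => (((u.1 ^ 3 * u.2 ^ 2 : ℕ)) : ℝ) ^ (-(3 / 4) : ℝ))
              (fun _ _ => by positivity) (mem_filter.2 ⟨hu, hub⟩)
    _ = (∑ a ∈ Icc 1 x, (a : ℝ) ^ (-(9 / 4) : ℝ)) * ∑ c ∈ Icc 1 x, (c : ℝ) ^ (-(3 / 2) : ℝ) := by
        rw [sum_mul_sum, sum_product]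
        refine sum_congr rfl fun a _ => sum_congr rfl fun c _ => ?_
        push_cast
        rw [Real.mul_rpow (by positivity) (by positivity), ← Real.rpow_natCast,
          ← Real.rpow_natCast, ← Real.rpow_mul (by positivity), ← Real.rpow_mul (by positivity)]
        norm_num
    _ ≤ A * D := by
        apply mul_le_mul
        · exact s1.sum_le_tsum _ fun _ _ => by positivity
        · exact s2.sum_le_tsum _ fun _ _ => by positivity
        · exact sum_nonneg fun _ _ => by positivity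
        · exact hA
    _ ≤ A * D + 1 := by linarith

end Pool.Agent.H398R3.NA
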