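import Mathlib
import Pool.Agent.H295R3.NA.Stmts
import Pool.Agent.H398R3.NA.Base

/-! The decomposition `n = B m` used in `TaskSM`. -/

set_option autoImplicit false

open Finset

namespace Pool.Agent.H398R3.NA

open Pool.Agent.H295R3.NA

/-- the part of `n` on which the exponents are `-1` modulo `l` -/
def BB (l n : ℕ) : ℕ := ∏ p ∈ n.primeFactors.filter (fun p => l ∣ n.factorization p + 1), p ^ n.factorization p

/-- the rest -/
def MM' (l n : ℕ) : ℕ := ∏ p ∈ n.primeFactors.filter (fun p => ¬ l ∣ n.factorization p + 1), p ^ n.factorization p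

theorem BB_mul (l n : ℕ) (hn : n ≠ 0) : BB l n * MM' l n = n := by
  unfold BB MM'
  rw [prod_filter_mul_prod_filter_not]
  conv_rhs => rw [← Nat.prod_factorization_pow_eq_self hn]
  rw [Finsupp.prod, Nat.support_factorization]

theorem BB_coprime (l n : ℕ) : (BB l n).Coprime (MM' l n) := by
  unfold BB MM'
  refine Nat.Coprime.prod_left fun p hp => Nat.Coprime.prod_right fun q hq => ?_
  rw [mem_filter] at hp hq
  apply Nat.Coprime.pow
  rw [Nat.coprime_primes (Nat.prime_of_mem_primeFactors hp.1) (Nat.prime_of_mem_primeFactors hq.1)]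
  rintro rfl
  exact hq.2 hp.2

theorem BB_ne (l n : ℕ) : BB l n ≠ 0 := by
  unfold BB
  refine prod_ne_zero_iff.2 fun p hp => ?_
  rw [mem_filter] at hp
  exact pow_ne_zero _ (Nat.prime_of_mem_primeFactors hp.1).ne_zero

theorem MM'_ne (l n : ℕ) : MM' l n ≠ 0 := by
  unfold MM'
  refine prod_ne_zero_iff.2 fun p hp => ?_
  rw [mem_filter] at hp
  exact pow_ne_zero _ (Nat.prime_of_mem_primeFactors hp.1).ne_zero

theorem BB_pf (l n p : ℕ) (hn : n ≠ 0) (hp : p ∈ (BB l n).primeFactors) :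
    l ∣ (BB l n).factorization p + 1 := by
  have h1 := Nat.factorization_eq_of_coprime_left (BB_coprime l n) (List.mem_toFinset.1 hp)
  rw [BB_mul l n hn] at h1
  rw [← h1]
  have h2 := Nat.dvd_of_mem_primeFactors hp
  have hpp := Nat.prime_of_mem_primeFactors hp
  unfold BB at h2
  obtain ⟨q, hq, hpq⟩ := (hpp.prime.dvd_finsetProd_iff _).1 h2
  rw [mem_filter] at hq
  have h3 := (Nat.prime_dvd_prime_iff_eq hpp (Nat.prime_of_mem_primeFactors hq.1)).1
    (hpp.dvd_of_dvd_pow hpq)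
  rw [h3]
  exact hq.2

theorem MM'_pf (l n p : ℕ) (hn : n ≠ 0) (hp : p ∈ (MM' l n).primeFactors) :
    ¬ l ∣ (MM' l n).factorization p + 1 := by
  have h1 := Nat.factorization_eq_of_coprime_right (BB_coprime l n) (List.mem_toFinset.1 hp)
  rw [BB_mul l n hn] at h1
  rw [← h1]
  have h2 := Nat.dvd_of_mem_primeFactors hp
  have hpp := Nat.prime_of_mem_primeFactors hp
  unfold MM' at h2
  obtain ⟨q, hq, hpq⟩ := (hpp.prime.dvd_finsetProd_iff _).1 h2
  rw [mem_filter] at hq
  have h3 := (Nat.prime_dvd_prime_iff_eq hpp (Nat.prime_of_mem_primeFactors hq.1)).1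
    (hpp.dvd_of_dvd_pow hpq)
  rw [h3]
  exact hq.2

theorem dd_val (l n : ℕ) (hl : l.Prime) (hn : n ≠ 0) :
    padicValNat l (dd n) = padicValNat l (dd (BB l n)) := by
  have := Fact.mk hl
  have h1 : dd n = dd (BB l n) * dd (MM' l n) := by
    unfold dd
    rw [← Nat.Coprime.card_divisors_mul (BB_coprime l n), BB_mul l n hn]
  have h2 : dd (BB l n) ≠ 0 := by
    unfold dd
    rw [Finset.card_ne_zero, Nat.nonempty_divisors]
    exact BB_ne l n
  have h3 : dd (MM' l n) ≠ 0 := by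
    unfold dd
    rw [Finset.card_ne_zero, Nat.nonempty_divisors]
    exact MM'_ne l n
  rw [h1, padicValNat.mul h2 h3]
  have h4 : ¬ l ∣ dd (MM' l n) := by
    unfold dd
    rw [Nat.card_divisors (MM'_ne l n)]
    intro h
    obtain ⟨p, hp, hlp⟩ := (hl.prime.dvd_finsetProd_iff _).1 h
    exact MM'_pf l n p hn hp hlp
  rw [padicValNat.eq_zero_of_not_dvd h4, add_zero]

theorem cnt_le (l n : ℕ) (hn : n ≠ 0) : cnt l (MM' l n) ≤ cnt l n := by
  unfold cnt
  refine card_le_card fun q hq => ?_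
  rw [mem_filter] at hq ⊢
  obtain ⟨hq1, hq2, hq3⟩ := hq
  have hqp := Nat.prime_of_mem_primeFactors hq1
  have hqd := Nat.dvd_of_mem_primeFactors hq1
  refine ⟨?_, ?_, hq3⟩
  · rw [Nat.mem_primeFactors]
    refine ⟨hqp, ?_, hn⟩
    rw [← BB_mul l n hn]
    exact hqd.mul_left _
  · intro h
    apply hq2
    rw [← BB_mul l n hn] at h
    have h1 : Nat.Coprime q (BB l n) := (Nat.Coprime.coprime_dvd_right hqd (BB_coprime l n)).symm
    exact (Nat.Coprime.pow_left 2 h1).dvd_of_dvd_mul_left h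

theorem hund (l B : ℕ) (hl : l.Prime) (hl2 : l ≠ 2) (hB : B ≠ 0) :
    (100 : ℝ) ^ (padicValNat l (dd B)) ≤ D5 * (B : ℝ) ^ ((1 : ℝ) / 4) := by
  set k := padicValNat l (dd B)
  have h0 : 0 < dd B := by
    unfold dd
    rw [Finset.card_pos, Nat.nonempty_divisors]
    exact hB
  have h1 : l ^ k ≤ dd B := Nat.le_of_dvd h0 pow_padicValNat_dvd
  have h2 : 3 ≤ l := by
    have := hl.two_le
    omega
  have h3 : (3 : ℕ) ^ k ≤ dd B := (Nat.pow_le_pow_left h2 k).trans h1
  have h4 : ((3 : ℝ) ^ k) ≤ (dd B : ℝ) := by exact_mod_cast h3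
  calc (100 : ℝ) ^ k ≤ ((3 : ℝ) ^ 5) ^ k := pow_le_pow_left₀ (by norm_num) (by norm_num) k
    _ = ((3 : ℝ) ^ k) ^ 5 := by rw [← pow_mul, ← pow_mul, mul_comm]
    _ ≤ (dd B : ℝ) ^ 5 := pow_le_pow_left₀ (by positivity) h4 5
    _ ≤ _ := div_bound B hB

open Classical in
theorem count_le (hF1 : F1) (x l : ℕ) (hl : l.Prime) (hl2 : l ≠ 2) :
    Nb (Bad l) x ≤ ∑ B ∈ SF x, Nb (fun m => cnt l m ≤ padicValNat l (dd B)) (x / B) := by
  have h3 : 3 ≤ l := by
    have := hl.two_le
    omega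
  have hsub : (Icc 1 x).filter (fun n => Bad l n) ⊆ (SF x).biUnion (fun B =>
      ((Icc 1 (x / B)).filter (fun m => cnt l m ≤ padicValNat l (dd B))).image (fun m => B * m)) := by
    intro n hn
    rw [mem_filter, mem_Icc] at hn
    obtain ⟨⟨hn1, hnx⟩, hbad⟩ := hn
    have hn0 : n ≠ 0 := by omega
    have hmul := BB_mul l n hn0
    have hBpos : 0 < BB l n := Nat.pos_of_ne_zero (BB_ne l n)
    have hMpos : 0 < MM' l n := Nat.pos_of_ne_zero (MM'_ne l n)
    have hBle : BB l n ≤ n := by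
      calc BB l n = BB l n * 1 := (mul_one _).symm
        _ ≤ BB l n * MM' l n := Nat.mul_le_mul_left _ hMpos
        _ = n := hmul
    rw [mem_biUnion]
    refine ⟨BB l n, ?_, ?_⟩
    · unfold SF
      rw [mem_filter, mem_Icc]
      refine ⟨⟨hBpos, hBle.trans hnx⟩, fun p hp => ?_⟩
      have h1 := BB_pf l n p hn0 hp
      have h2 := Nat.le_of_dvd (Nat.succ_pos _) h1
      omega
    · rw [mem_image]
      refine ⟨MM' l n, ?_, hmul⟩
      rw [mem_filter, mem_Icc]
      refine ⟨⟨hMpos, ?_⟩, ?_⟩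
      · rw [Nat.le_div_iff_mul_le hBpos, mul_comm, hmul]
        exact hnx
      · have h1 := cnt_le l n hn0
        have h2 := hF1 l n hl hn1
        have h4 := dd_val l n hl hn0
        unfold Bad at hbad
        omega
  unfold Nb
  have h1 := (card_le_card hsub).trans card_biUnion_le
  have h2 : ∑ B ∈ SF x, (((Icc 1 (x / B)).filter (fun m => cnt l m ≤ padicValNat l (dd B))).image
      (fun m => B * m)).card ≤ ∑ B ∈ SF x, ((Icc 1 (x / B)).filter
        (fun m => cnt l m ≤ padicValNat l (dd B))).card :=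
    sum_le_sum fun B _ => card_image_le
  have h4 := h1.trans h2
  calc ((((Icc 1 x).filter (fun n => Bad l n)).card : ℕ) : ℝ)
      ≤ ((∑ B ∈ SF x, ((Icc 1 (x / B)).filter
        (fun m => cnt l m ≤ padicValNat l (dd B))).card : ℕ) : ℝ) := by exact_mod_cast h4
    _ = _ := by push_cast; rfl

end Pool.Agent.H398R3.NA
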