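import Mathlib
import Pool.Agent.H295R3.NA.Stmts
import Pool.Agent.H398R3.NA.SMa

/-! `TaskSM`: the crude bound for odd `l`. -/

set_option autoImplicit false

open Finset Filter Topology

namespace Pool.Agent.H398R3.NA

open Pool.Agent.H295R3.NA

theorem RS_mono (l a b : ℕ) (h : a ≤ b) : RS l a ≤ RS l b := by
  unfold RS
  refine sum_le_sum_of_subset_of_nonneg ?_ fun _ _ _ => by positivity
  exact filter_subset_filter _ (Icc_subset_Icc_right h)

open Classical in
theorem Nb_le (P : ℕ → Prop) (Y : ℕ) : Nb P Y ≤ Y := by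
  unfold Nb
  have h := card_filter_le (Icc 1 Y) (fun n => P n)
  rw [Nat.card_Icc] at h
  have h2 : ((Icc 1 Y).filter (fun n => P n)).card ≤ Y := by omega
  exact_mod_cast h2

/-- `log log` of the integer square root -/
theorem LL_sqrt (x : ℕ) (hx : 9 ≤ x) : LL x - 2 ≤ LL (Nat.sqrt x) := by
  unfold LL
  set s := Nat.sqrt x with hs
  have hs3 : 3 ≤ s := by
    rw [hs, Nat.le_sqrt]
    omega
  have h1 : x < (s + 1) * (s + 1) := Nat.lt_succ_sqrt x
  have h2 : x < (s ^ 2) * (s ^ 2) := by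
    have h3 : s + 1 ≤ s ^ 2 := by nlinarith
    exact h1.trans_le (Nat.mul_le_mul h3 h3)
  have h2' : (x : ℝ) ≤ (s : ℝ) ^ 4 := by
    have h4 : x ≤ s ^ 4 := by
      have : (s ^ 2) * (s ^ 2) = s ^ 4 := by ring
      omega
    exact_mod_cast h4
  have hx0 : (0 : ℝ) < x := by exact_mod_cast (by omega : 0 < x)
  have hs0 : (3 : ℝ) ≤ s := by exact_mod_cast hs3
  have h5 : Real.log x ≤ 4 * Real.log s := by
    have := Real.log_le_log hx0 h2'
    rw [Real.log_pow] at this
    exact_mod_cast this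
  have hlx : 0 < Real.log x := Real.log_pos (by exact_mod_cast (by omega : 1 < x))
  have hls : 0 < Real.log s := Real.log_pos (by linarith)
  have h6 : Real.log (Real.log x) ≤ Real.log (4 * Real.log s) := Real.log_le_log hlx h5
  rw [Real.log_mul (by norm_num) hls.ne'] at h6
  have h7 : Real.log 4 ≤ 2 := by
    have h8 : Real.log 4 = 2 * Real.log 2 := by
      rw [show (4 : ℝ) = 2 ^ 2 by norm_num, Real.log_pow]
      norm_num
    have h9 := Real.log_two_lt_d9
    linarith
  linarith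

theorem taskSM : TaskSM := by
  rintro ⟨C1, hC1, hRK⟩ ⟨C2, x1, hC2, hMAP⟩ hF1
  obtain ⟨C4, hC4, hS⟩ := sf_sum
  set K : ℝ := C1 * D5 * Real.exp (1 + C2) + 1 with hK
  have hD5 := D5_pos
  have hKpos : 0 < K := by positivity
  have hev1 : ∀ᶠ x : ℕ in atTop, (20 : ℝ) ≤ LL x := by
    have := (Real.tendsto_log_atTop.comp (Real.tendsto_log_atTop.comp
      tendsto_natCast_atTop_atTop)).eventually_ge_atTop (20 : ℝ)
    exact this
  have hev2 : ∀ᶠ x : ℕ in atTop, Real.log (x : ℝ) ≤ (x : ℝ) ^ ((1 : ℝ) / 8) := by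
    have h := (isLittleO_log_rpow_atTop (r := (1 : ℝ) / 8) (by norm_num)).bound
      (show (0 : ℝ) < 1 by norm_num)
    have h2 := (tendsto_natCast_atTop_atTop (R := ℝ)).eventually h
    filter_upwards [h2, eventually_ge_atTop 1] with x hx hx1
    rw [one_mul] at hx
    have h3 : (0 : ℝ) ≤ Real.log x := Real.log_natCast_nonneg x
    rw [Real.norm_of_nonneg h3, Real.norm_of_nonneg (by positivity)] at hx
    exact hx
  have hev3 : ∀ᶠ x : ℕ in atTop, max x1 3 ≤ Nat.sqrt x := by
    filter_upwards [eventually_ge_atTop (max x1 3 * max x1 3)] with x hx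
    exact Nat.le_sqrt.2 hx
  obtain ⟨x0, hx0⟩ := eventually_atTop.1 (hev1.and (hev2.and hev3))
  refine ⟨K * C4, x0, by positivity, fun x hx l hl hl2 hlx => ?_⟩
  obtain ⟨hLL, hlog, hsq⟩ := hx0 x hx
  have h3 : 3 ≤ l := by
    have := hl.two_le
    omega
  have hl3 : (3 : ℝ) ≤ l := by exact_mod_cast h3
  have hs3 : 3 ≤ Nat.sqrt x := (le_max_right _ _).trans hsq
  have hs1 : x1 ≤ Nat.sqrt x := (le_max_left _ _).trans hsq
  have hx9 : 9 ≤ x := by
    have h := Nat.le_sqrt.1 hs3
    omega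
  have hxpos : (0 : ℝ) < x := by exact_mod_cast (by omega : 0 < x)
  have hLs := LL_sqrt x hx9
  set E : ℝ := Real.exp (-(99 / 100) * LL x / ((l : ℝ) - 1)) with hE
  -- lower bound for the reciprocal sum
  have hRS : LL x / ((l : ℝ) - 1) - 1 - C2 ≤ RS l (Nat.sqrt x) := by
    have h := hMAP (Nat.sqrt x) hs1 l (Or.inl hl) (by nlinarith)
    rw [Nat.totient_prime hl] at h
    have hcast : ((l - 1 : ℕ) : ℝ) = (l : ℝ) - 1 := by
      rw [Nat.cast_sub (by omega)]
      simp
    rw [hcast] at h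
    have h4 := (abs_le.1 h).1
    have h5 : LL x / ((l : ℝ) - 1) - 1 ≤ LL (Nat.sqrt x) / ((l : ℝ) - 1) := by
      have h6 : (LL x - 2) / ((l : ℝ) - 1) ≤ LL (Nat.sqrt x) / ((l : ℝ) - 1) :=
        div_le_div_of_nonneg_right hLs (by linarith)
      have h7 : 2 / ((l : ℝ) - 1) ≤ 1 := by
        rw [div_le_one (by linarith)]
        linarith
      rw [sub_div] at h6
      linarith
    linarith
  -- each term
  have hterm : ∀ B ∈ SF x, Nb (fun m => cnt l m ≤ padicValNat l (dd B)) (x / B) ≤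
      K * x * E * (B : ℝ) ^ (-(3 / 4) : ℝ) := by
    intro B hB
    unfold SF at hB
    rw [mem_filter, mem_Icc] at hB
    obtain ⟨⟨hB1, hBx⟩, _⟩ := hB
    have hBpos : (0 : ℝ) < B := by exact_mod_cast (by omega : 0 < B)
    have hdiv : ((x / B : ℕ) : ℝ) ≤ (x : ℝ) / B := Nat.cast_div_le
    have hEpos : 0 < E := Real.exp_pos _
    rcases le_or_gt B (Nat.sqrt x) with hBs | hBs
    · have hYs : Nat.sqrt x ≤ x / B := by
        rw [Nat.le_div_iff_mul_le (by omega)]
        calc Nat.sqrt x * B ≤ Nat.sqrt x * Nat.sqrt x := Nat.mul_le_mul_left _ hBs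
          _ ≤ x := Nat.sqrt_le x
      have h1 := hRK (x / B) l (padicValNat l (dd B)) (by omega) (by omega)
      refine h1.trans ?_
      have h2 := hund l B hl hl2 (by omega)
      have h4 : Real.exp (-(99 / 100) * RS l (x / B)) ≤ Real.exp (1 + C2) * E := by
        rw [hE, ← Real.exp_add]
        apply Real.exp_le_exp.2
        have h5 := RS_mono l _ _ hYs
        have h6 : -(99 / 100) * LL x / ((l : ℝ) - 1) = -(99 / 100) * (LL x / ((l : ℝ) - 1)) := by
          ring
        rw [h6]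
        linarith
      calc C1 * 100 ^ (padicValNat l (dd B)) * ((x / B : ℕ) : ℝ) *
            Real.exp (-(99 / 100) * RS l (x / B))
          ≤ C1 * (D5 * (B : ℝ) ^ ((1 : ℝ) / 4)) * ((x : ℝ) / B) * (Real.exp (1 + C2) * E) := by
            gcongr
        _ = (C1 * D5 * Real.exp (1 + C2)) * x * E * ((B : ℝ) ^ ((1 : ℝ) / 4) / B) := by
            field_simp
        _ = (C1 * D5 * Real.exp (1 + C2)) * x * E * (B : ℝ) ^ (-(3 / 4) : ℝ) := by
            congr 1
            rw [show (-(3 / 4) : ℝ) = 1 / 4 - 1 by norm_num, Real.rpow_sub_one hBpos.ne']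
        _ ≤ K * x * E * (B : ℝ) ^ (-(3 / 4) : ℝ) := by
            gcongr
            rw [hK]
            linarith
    · refine (Nb_le _ _).trans (hdiv.trans ?_)
      have hBx2 : (x : ℝ) ≤ (B : ℝ) ^ 2 := by
        have h1 : x < (Nat.sqrt x + 1) * (Nat.sqrt x + 1) := Nat.lt_succ_sqrt x
        have h2 : (Nat.sqrt x + 1) * (Nat.sqrt x + 1) ≤ B * B := Nat.mul_le_mul hBs hBs
        have h3 : x ≤ B ^ 2 := by
          rw [sq]
          omega
        exact_mod_cast h3
      have h1 : (x : ℝ) ^ ((1 : ℝ) / 8) ≤ (B : ℝ) ^ ((1 : ℝ) / 4) := by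
        calc (x : ℝ) ^ ((1 : ℝ) / 8) ≤ ((B : ℝ) ^ 2) ^ ((1 : ℝ) / 8) :=
              Real.rpow_le_rpow hxpos.le hBx2 (by norm_num)
          _ = (B : ℝ) ^ ((1 : ℝ) / 4) := by
              rw [← Real.rpow_natCast, ← Real.rpow_mul hBpos.le]
              norm_num
      have hlogpos : 0 < Real.log x := Real.log_pos (by exact_mod_cast (by omega : 1 < x))
      have h2 : (B : ℝ) ^ (-(1 / 4) : ℝ) ≤ E := by
        have h3 : (Real.log x)⁻¹ ≤ E := by
          have h4 : Real.exp (-(LL x)) = (Real.log x)⁻¹ := by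
            unfold LL
            rw [Real.exp_neg, Real.exp_log hlogpos]
          rw [← h4, hE]
          apply Real.exp_le_exp.2
          have h5 : -(99 / 100) * LL x / ((l : ℝ) - 1) = -((99 / 100) * LL x / ((l : ℝ) - 1)) := by
            ring
          rw [h5]
          apply neg_le_neg
          rw [div_le_iff₀ (by linarith)]
          nlinarith
        calc (B : ℝ) ^ (-(1 / 4) : ℝ) = ((B : ℝ) ^ ((1 : ℝ) / 4))⁻¹ := by
              rw [← Real.rpow_neg hBpos.le]
          _ ≤ (Real.log x)⁻¹ := by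
              apply inv_anti₀ hlogpos
              exact hlog.trans h1
          _ ≤ E := h3
      calc (x : ℝ) / B = 1 * x * (B : ℝ) ^ (-(1 / 4) : ℝ) * (B : ℝ) ^ (-(3 / 4) : ℝ) := by
            rw [mul_assoc, ← Real.rpow_add hBpos,
              show (-(1 / 4) + -(3 / 4) : ℝ) = -1 by norm_num, Real.rpow_neg_one]
            ring
        _ ≤ K * x * E * (B : ℝ) ^ (-(3 / 4) : ℝ) := by
            gcongr
            rw [hK]
            have : 0 ≤ C1 * D5 * Real.exp (1 + C2) := by positivity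
            linarith
  calc Nb (Bad l) x ≤ ∑ B ∈ SF x, Nb (fun m => cnt l m ≤ padicValNat l (dd B)) (x / B) :=
        count_le hF1 x l hl hl2
    _ ≤ ∑ B ∈ SF x, K * x * E * (B : ℝ) ^ (-(3 / 4) : ℝ) := sum_le_sum hterm
    _ = K * x * E * ∑ B ∈ SF x, (B : ℝ) ^ (-(3 / 4) : ℝ) := by rw [mul_sum]
    _ ≤ K * x * E * C4 := by
        have := hS x
        have hEpos : 0 < E := Real.exp_pos _
        gcongr
    _ = K * C4 * x * E := by ring

end Pool.Agent.H398R3.NA
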